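import Pool.Agent.W295.PR.Stm

/-!
# Minimality modulo the stabiliser
-/

set_option autoImplicit false

namespace Pool.Agent.W414.PR.BASE

open Pool.Agent.W295.PR

/-- the theorem -/
theorem main (h : S_Fib) : S_Base := by
  intro Y C P _ _ _ _ _ _ _ _ _ _ E Y' _ _ ap' T' T'' S' S'' π hπ hap hT hT' hS hS' hfib hmin hMin
    K hK F hF hFc hFn hFi hFK
  have hOm : Set.MapsTo π E.Om (closure (Set.range fun g : P => ap' g (π E.w))) := by
    apply Set.MapsTo.closure _ hπ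
    rintro _ ⟨g, rfl⟩
    exact ⟨g, (hap g E.w).symm⟩
  have hcl : IsClosed (π '' F) := (hFc.isCompact.image hπ).isClosed
  have himg : π '' F = closure (Set.range fun g : P => ap' g (π E.w)) := by
    apply hmin _ _ hcl (hFn.image π)
    · rintro _ ⟨y, hy, rfl⟩
      obtain ⟨h1, h2, h3, h4⟩ := hFi y hy
      exact ⟨⟨_, h1, hT y⟩, ⟨_, h2, hT' y⟩, ⟨_, h3, hS y⟩, ⟨_, h4, hS' y⟩⟩
    · rintro _ ⟨y, hy, rfl⟩
      exact hOm (hF hy)
  apply Set.Subset.antisymm hF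
  intro y hy
  have h1 : π y ∈ π '' F := by
    rw [himg]
    exact hOm hy
  obtain ⟨f, hf, hfy⟩ := h1
  obtain ⟨c, hc⟩ := hfib f y hfy
  have hcK : c ∈ E.KK := h Y C P E hMin f (hF hf) c (hc ▸ hy)
  rw [hc]
  exact hFK c (by rw [← SetLike.mem_coe, hK]; exact hcK) f hf

end Pool.Agent.W414.PR.BASE
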